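import Mathlib

universe u

namespace Pool.Agent.Helper73.Witness

open Cardinal Set

/-- A neighbourhood assignment for `Y`: every `y ∈ Y` gets an open set whose only point in `Y`
is `y`. -/
structure IsAssignment {X : Type u} [TopologicalSpace X] (Y : Set X) (f : Y → Set X) : Prop where
  isOpen : ∀ y, IsOpen (f y)
  inter_eq : ∀ y : Y, f y ∩ Y = {(y : X)}

/-- The assignment `f` witnesses the normality of the subset `Z` of `Y`. -/
def Witnesses {X : Type u} {Y : Set X} (f : Y → Set X) (Z : Set Y) : Prop :=
  Disjoint (⋃ y ∈ Z, f y) (⋃ y ∈ Zᶜ, f y)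

/-- The points of `Y` have pairwise disjoint open neighbourhoods. -/
def IsSeparated {X : Type u} [TopologicalSpace X] (Y : Set X) : Prop :=
  ∃ U : Y → Set X, (∀ y : Y, IsOpen (U y) ∧ (y : X) ∈ U y) ∧
    ∀ y z : Y, y ≠ z → Disjoint (U y) (U z)

/-- A family of uncountable sets such that no single set splits all of its members. -/
def IsReapingFamily {α : Type u} (R : Set (Set α)) : Prop :=
  (∀ A ∈ R, ¬ A.Countable) ∧ ∀ Z : Set α, ∃ A ∈ R, (A ∩ Z).Countable ∨ (A \ Z).Countable

/-- The reaping number at `ω₁`: the least size of a reaping family of uncountable subsets of a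
set of size `ℵ₁`. -/
noncomputable def reapingNumber : Cardinal.{u} :=
  sInf {c | ∃ R : Set (Set (ℵ₁ : Cardinal.{u}).out), IsReapingFamily R ∧ #R = c}

end Pool.Agent.Helper73.Witness
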