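import Pool.Agent.Helper73.Witness.Defs

universe u

namespace Pool.Agent.Helper73.Witness

open Cardinal Set

variable {X : Type u} [TopologicalSpace X]

lemma isClosed_of_subset {Y : Set X} (hc : IsClosed Y) [DiscreteTopology Y] {A : Set X}
    (hA : A ⊆ Y) : IsClosed A := by
  have h1 : IsClosed ((Subtype.val : Y → X) ⁻¹' A) := isClosed_discrete _
  have h2 := hc.isClosedEmbedding_subtypeVal.isClosedMap _ h1
  rwa [Subtype.image_preimage_coe, Set.inter_eq_right.mpr hA] at h2

lemma exists_nhd [NormalSpace X] {Y : Set X} (hc : IsClosed Y) [DiscreteTopology Y] (y : Y) :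
    ∃ G : Set X, IsOpen G ∧ (y : X) ∈ G ∧ ∀ z : Y, z ≠ y → (z : X) ∉ closure G := by
  have h1 : IsClosed {(y : X)} := isClosed_of_subset hc (by simp)
  have h2 : IsClosed (Y \ {(y : X)}) := isClosed_of_subset hc Set.sdiff_subset
  obtain ⟨G, H, hG, hH, hyG, hH2, hdisj⟩ := normal_separation h1 h2 (by
    rw [Set.disjoint_left]; rintro x hx ⟨_, hx2⟩; exact hx2 hx)
  refine ⟨G, hG, hyG rfl, fun z hz hzG => ?_⟩
  have h3 : (z : X) ∈ H := hH2 ⟨z.2, fun h => hz (Subtype.ext h)⟩
  rw [mem_closure_iff] at hzG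
  obtain ⟨w, hw1, hw2⟩ := hzG H hH h3
  exact Set.disjoint_left.mp hdisj hw2 hw1

lemma exists_sep_countable [NormalSpace X] {Y : Set X} (hc : IsClosed Y) [DiscreteTopology Y]
    (C : Set Y) (hC : C.Countable) :
    ∃ V : Y → Set X, (∀ y : Y, IsOpen (V y) ∧ (y : X) ∈ V y) ∧
      ∀ y ∈ C, ∀ z ∈ C, y ≠ z → Disjoint (V y) (V z) := by
  choose G hG1 hG2 hG3 using fun y : Y => exists_nhd hc y
  obtain ⟨g, hg⟩ := Set.countable_iff_exists_injOn.mp hC
  let P : Y → Set Y := fun y => {z | z ∈ C ∧ y ∈ C ∧ g z < g y}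
  have hP : ∀ y, (P y).Finite := by
    intro y
    have h1 : (g '' P y).Finite := (Set.finite_Iio (g y)).subset (by
      rintro _ ⟨z, hz, rfl⟩; exact hz.2.2)
    exact Set.Finite.of_finite_image h1 (hg.mono (fun z hz => hz.1))
  refine ⟨fun y => G y \ ⋃ z ∈ P y, closure (G z), fun y => ⟨?_, ?_⟩, ?_⟩
  · apply (hG1 y).sdiff
    exact (hP y).isClosed_biUnion (fun z _ => isClosed_closure)
  · refine ⟨hG2 y, ?_⟩
    simp only [Set.mem_iUnion, not_exists]
    intro z hz
    apply hG3 z y
    rintro rfl
    exact lt_irrefl _ hz.2.2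
  · have key : ∀ y ∈ C, ∀ z ∈ C, g z < g y →
        Disjoint (G y \ ⋃ w ∈ P y, closure (G w)) (G z \ ⋃ w ∈ P z, closure (G w)) := by
      intro y hy z hz hlt
      rw [Set.disjoint_left]
      rintro x ⟨_, hx2⟩ ⟨hx3, _⟩
      apply hx2
      simp only [Set.mem_iUnion]
      exact ⟨z, ⟨hz, hy, hlt⟩, subset_closure hx3⟩
    intro y hy z hz hne
    rcases lt_trichotomy (g y) (g z) with h | h | h
    · exact (key z hz y hy h).symm
    · exact absurd (hg hy hz h) hne
    · exact key y hy z hz h

/-- the component of `y` in the intersection graph of the assignment `f` -/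
def comp {Y : Set X} (f : Y → Set X) (y : Y) : Set Y :=
  {z | Relation.EqvGen (fun a b => ¬ Disjoint (f a) (f b)) y z}

lemma mem_comp_self {Y : Set X} (f : Y → Set X) (y : Y) : y ∈ comp f y :=
  Relation.EqvGen.refl y

lemma comp_eq {Y : Set X} {f : Y → Set X} {y z : Y} (h : z ∈ comp f y) : comp f z = comp f y := by
  ext w
  constructor
  · intro hw
    exact Relation.EqvGen.trans _ _ _ h hw
  · intro hw
    exact Relation.EqvGen.trans _ _ _ (Relation.EqvGen.symm _ _ h) hw

lemma mem_iff_of_witnesses {Y : Set X} {f : Y → Set X} {Z : Set Y} (h : Witnesses f Z) {y z : Y}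
    (hyz : Relation.EqvGen (fun a b => ¬ Disjoint (f a) (f b)) y z) : y ∈ Z ↔ z ∈ Z := by
  induction hyz with
  | rel a b hab =>
    by_contra hcon
    apply hab
    rcases not_iff.mp hcon with hcon'
    by_cases ha : a ∈ Z
    · have hb : b ∉ Z := fun hb => (hcon'.mpr hb) ha
      exact h.mono (Set.subset_biUnion_of_mem (u := f) ha)
        (Set.subset_biUnion_of_mem (u := f) (show b ∈ Zᶜ from hb))
    · have hb : b ∈ Z := hcon'.mp ha
      exact (h.mono (Set.subset_biUnion_of_mem (u := f) hb)
        (Set.subset_biUnion_of_mem (u := f) (show a ∈ Zᶜ from ha))).symm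
  | refl a => exact Iff.rfl
  | symm a b _ ih => exact ih.symm
  | trans a b c _ _ ih1 ih2 => exact ih1.trans ih2

lemma isReapingFamily_image {α β : Type u} (e : α ≃ β) {R : Set (Set α)} (hR : IsReapingFamily R) :
    IsReapingFamily ((fun A => e '' A) '' R) := by
  constructor
  · rintro _ ⟨A, hA, rfl⟩ hcount
    apply hR.1 A hA
    exact (Set.countable_of_injective_of_countable_image (e.injective.injOn) hcount)
  · intro Z
    obtain ⟨A, hA, h⟩ := hR.2 (e ⁻¹' Z)
    refine ⟨e '' A, ⟨A, hA, rfl⟩, ?_⟩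
    rcases h with h | h
    · left
      have : e '' A ∩ Z = e '' (A ∩ e ⁻¹' Z) := by
        rw [Set.image_inter_preimage]
      rw [this]
      exact h.image e
    · right
      have : e '' A \ Z = e '' (A \ e ⁻¹' Z) := by
        rw [Set.image_sdiff e.injective, Set.image_preimage_eq _ e.surjective]
      rw [this]
      exact h.image e

theorem main [NormalSpace X] (Y : Set X) (hc : IsClosed Y) [DiscreteTopology Y]
    (hY : #Y = ℵ₁) (F : Set (Y → Set X)) (hF : ∀ f ∈ F, IsAssignment Y f)
    (hw : ∀ Z : Set Y, ∃ f ∈ F, Witnesses f Z) (hcard : #F < reapingNumber.{u}) :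
    IsSeparated Y := by
  classical
  by_cases hcase : ∃ f ∈ F, ∀ y : Y, (comp f y).Countable
  · obtain ⟨f, hfF, hf⟩ := hcase
    have hfa := hF f hfF
    choose V hV1 hV2 using fun C : {C : Set Y // C.Countable} => exists_sep_countable hc C.1 C.2
    refine ⟨fun y => V ⟨comp f y, hf y⟩ y ∩ f y, fun y => ⟨?_, ?_⟩, fun y z hyz => ?_⟩
    · exact (hV1 _ y).1.inter (hfa.isOpen y)
    · refine ⟨(hV1 _ y).2, ?_⟩
      have h1 : (y : X) ∈ f y ∩ Y := by
        rw [hfa.inter_eq y]; rfl
      exact h1.1
    · by_cases hd : z ∈ comp f y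
      · have h1 : (⟨comp f z, hf z⟩ : {C : Set Y // C.Countable}) = ⟨comp f y, hf y⟩ :=
          Subtype.ext (comp_eq hd)
        show Disjoint (V ⟨comp f y, hf y⟩ y ∩ f y) (V ⟨comp f z, hf z⟩ z ∩ f z)
        rw [h1]
        exact (hV2 _ y (mem_comp_self f y) z hd hyz).mono Set.inter_subset_left
          Set.inter_subset_left
      · have h1 : Disjoint (f y) (f z) := by
          by_contra hcon
          exact hd (Relation.EqvGen.rel _ _ hcon)
        exact h1.mono Set.inter_subset_right Set.inter_subset_right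
  · exfalso
    push Not at hcase
    have hne : Nonempty Y := by
      rw [← Cardinal.mk_ne_zero_iff, hY]
      exact (Cardinal.aleph_pos 1).ne'
    choose! y hy using hcase
    let R : Set (Set Y) := (fun f => comp f (y f)) '' F
    have hR : IsReapingFamily R := by
      constructor
      · rintro _ ⟨f, hf, rfl⟩
        exact hy f hf
      · intro Z
        obtain ⟨f, hf, hfZ⟩ := hw Z
        refine ⟨comp f (y f), ⟨f, hf, rfl⟩, ?_⟩
        by_cases hyZ : y f ∈ Z
        · right
          have : comp f (y f) \ Z = ∅ := by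
            ext z
            simp only [Set.mem_diff, Set.mem_empty_iff_false, iff_false, not_and, not_not]
            intro hz
            exact (mem_iff_of_witnesses hfZ hz).mp hyZ
          rw [this]
          exact Set.countable_empty
        · left
          have : comp f (y f) ∩ Z = ∅ := by
            ext z
            simp only [Set.mem_inter_iff, Set.mem_empty_iff_false, iff_false, not_and]
            intro hz hzZ
            exact hyZ ((mem_iff_of_witnesses hfZ hz).mpr hzZ)
          rw [this]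
          exact Set.countable_empty
    have he : Nonempty (Y ≃ (ℵ₁ : Cardinal.{u}).out) := by
      rw [← Cardinal.eq, Cardinal.mk_out, hY]
    obtain ⟨e⟩ := he
    have hR' := isReapingFamily_image e hR
    have h1 : reapingNumber.{u} ≤ #((fun A => e '' A) '' R) :=
      csInf_le (OrderBot.bddBelow _) ⟨_, hR', rfl⟩
    have h2 : #((fun A => e '' A) '' R) ≤ #F := Cardinal.mk_image_le.trans Cardinal.mk_image_le
    exact absurd (h1.trans h2) (not_le.mpr hcard)

end Pool.Agent.Helper73.Witness
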